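import Mathlib
import Pool.Graph.R_pool_sql_team_seeded_620a6dc7.Helper784WE.H2
import Pool.Graph.R_pool_sql_team_seeded_620a6dc7.Helper784WE.F
import Pool.Agent.KS6_5.WE.Core

/-!
# MP_122f18_al: the class of finitely presented groups that do not embed coarsely into a Hilbert space
and contain no weakly embedded expander
-/

set_option autoImplicit false

namespace Pool.Agent.Results.MP_122f18_al.ClassOfExamples

open Pool.Agent.KS6_5.WE Pool.Agent.Helper784WE

/-- `G` embeds coarsely into a real Hilbert space, for the coarse structure in which `g` and `g * t`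
with `t` in a fixed finite set are close (for finitely generated `G` this is the coarse structure of
the word metrics). -/
def CoarselyEmbeds (G : Type) [Group G] : Prop :=
  ∃ (H : Type) (_ : NormedAddCommGroup H) (_ : InnerProductSpace ℝ H) (_ : CompleteSpace H)
    (f : G → H),
    (∀ T : Finset G, ∃ C : ℝ, ∀ g, ∀ t ∈ T, ‖f g - f (g * t)‖ ≤ C) ∧
    (∀ R : ℝ, ∃ T : Finset G, ∀ g h, ‖f g - f h‖ ≤ R → g⁻¹ * h ∈ T)

/-- `G` answers the question: it is finitely presented, does not embed coarsely into a Hilbert space
and contains no weakly embedded expander. -/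
def IsExample (G : Type) [Group G] : Prop :=
  Group.IsFinitelyPresented G ∧ ¬ CoarselyEmbeds G ∧ ¬ ContainsWeakExpander G

theorem card_hom_free (n : ℕ) :
    Nat.card (FreeGroup (Fin n) →* Multiplicative (ZMod 2)) = 2 ^ n := by
  rw [Nat.card_congr (FreeGroup.lift (α := Fin n) (β := Multiplicative (ZMod 2))).symm,
    Nat.card_fun]
  simp

theorem card_hom_prod (G H : Type) [Group G] [Group H] :
    Nat.card (G × H →* Multiplicative (ZMod 2)) =
      Nat.card (G →* Multiplicative (ZMod 2)) * Nat.card (H →* Multiplicative (ZMod 2)) := by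
  rw [← Nat.card_prod]
  refine Nat.card_congr
    { toFun := fun f => (f.comp (MonoidHom.inl G H), f.comp (MonoidHom.inr G H))
      invFun := fun p => p.1.coprod p.2
      left_inv := fun f => ?_
      right_inv := fun p => ?_ }
  · ext x
    show f (x.1, 1) * f (1, x.2) = f x
    rw [← map_mul]
    simp
  · simp

theorem finite_hom (G : Type) [Group G] [Group.FG G] :
    Finite (G →* Multiplicative (ZMod 2)) := by
  obtain ⟨S, hS⟩ := Group.fg_def.1 (inferInstance : Group.FG G)
  refine Finite.of_injective (fun (f : G →* Multiplicative (ZMod 2)) (s : S) => f s) ?_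
  intro f g hfg
  refine MonoidHom.eq_of_eqOn_dense hS fun s hs => ?_
  exact congrFun hfg ⟨s, hs⟩

/-- (1) Groups that embed coarsely into a Hilbert space contain no weakly embedded expander, and the
class of groups without weakly embedded expanders is closed under subgroups, direct products,
extensions and HNN extensions.

(2) If `E` answers the question (finitely presented, no coarse embedding into a Hilbert space, no
weakly embedded expander), so do: `E × H` for every finitely presented `H` without weakly embedded
expanders, in particular for every finitely presented `H` that embeds coarsely into a Hilbert space;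
every HNN extension of `E` with finitely generated associated subgroups; and every finitely presented
extension of a group without weakly embedded expanders by another one that contains `E`.

(3) There are infinitely many pairwise non-isomorphic groups answering the question. -/
theorem result :
    ((∀ (G : Type) [Group G], CoarselyEmbeds G → ¬ ContainsWeakExpander G) ∧
      (∀ (G H : Type) [Group G] [Group H] (f : G →* H), Function.Injective f →
        ¬ ContainsWeakExpander H → ¬ ContainsWeakExpander G) ∧
      (∀ (G H : Type) [Group G] [Group H], ¬ ContainsWeakExpander G → ¬ ContainsWeakExpander H →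
        ¬ ContainsWeakExpander (G × H)) ∧
      (∀ (G : Type) [Group G] (N : Subgroup G) [N.Normal], ¬ ContainsWeakExpander N →
        ¬ ContainsWeakExpander (G ⧸ N) → ¬ ContainsWeakExpander G) ∧
      (∀ (G : Type) [Group G] (A B : Subgroup G) (φ : A ≃* B), ¬ ContainsWeakExpander G →
        ¬ ContainsWeakExpander (HNNExtension G A B φ))) ∧
    ((∀ (E H : Type) [Group E] [Group H], IsExample E → Group.IsFinitelyPresented H →
        ¬ ContainsWeakExpander H → IsExample (E × H)) ∧
      (∀ (E : Type) [Group E] (A B : Subgroup E) (φ : A ≃* B), IsExample E → A.FG →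
        IsExample (HNNExtension E A B φ)) ∧
      (∀ (E G : Type) [Group E] [Group G] (N : Subgroup G) [N.Normal] (f : E →* G),
        IsExample E → Group.IsFinitelyPresented G → Function.Injective f →
        ¬ ContainsWeakExpander N → ¬ ContainsWeakExpander (G ⧸ N) → IsExample G)) ∧
    (∃ (E : ℕ → Type) (_ : ∀ n, Group (E n)), (∀ n, IsExample (E n)) ∧
      ∀ m n, m ≠ n → IsEmpty (E m ≃* E n)) := by
  have hce : ∀ (G : Type) [Group G], CoarselyEmbeds G ↔ CEmb G := fun G _ => Iff.rfl
  have hprod : ∀ (E H : Type) [Group E] [Group H], IsExample E → Group.IsFinitelyPresented H →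
      ¬ ContainsWeakExpander H → IsExample (E × H) := by
    rintro E H _ _ ⟨h1, h2, h3⟩ h4 h5
    refine ⟨C.fp_prod' h1 h4, fun h => h2 ?_, ?_⟩
    · exact cemb_of_injective (MonoidHom.inl E H) (fun a b hab => congrArg Prod.fst hab) h
    · rw [← conc_iff] at h3 h5 ⊢
      exact specA.2.1 E H h3 h5
  refine ⟨⟨?_, ?_, ?_, ?_, ?_⟩, ⟨hprod, ?_, ?_⟩, ?_⟩
  · intro G _ h
    exact conc_iff.1 (conc_of_cemb h)
  · intro G H _ _ f hf h
    rw [← conc_iff] at h ⊢
    exact specA.1 G H f hf h
  · intro G H _ _ h1 h2
    rw [← conc_iff] at h1 h2 ⊢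
    exact specA.2.1 G H h1 h2
  · intro G _ N _ h1 h2
    rw [← conc_iff] at h1 h2 ⊢
    exact specA.2.2.1 G N h1 h2
  · intro G _ A B φ h
    rw [← conc_iff] at h ⊢
    exact specA.2.2.2.1 G A B φ h
  · rintro E _ A B φ ⟨h1, h2, h3⟩ hA
    have : Group.FG A := (Group.fg_iff_subgroup_fg _).mpr hA
    refine ⟨Pool.Agent.Helper270.FP.fp_hnn, fun h => h2 ?_, ?_⟩
    · exact cemb_of_injective (HNNExtension.of : E →* HNNExtension E A B φ)
        (HNNExtension.of_injective φ) h
    · rw [← conc_iff] at h3 ⊢
      exact specA.2.2.2.1 E A B φ h3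
  · rintro E G _ _ N _ f ⟨h1, h2, h3⟩ h4 hf h5 h6
    refine ⟨h4, fun h => h2 (cemb_of_injective f hf h), ?_⟩
    rw [← conc_iff] at h5 h6 ⊢
    exact specA.2.2.1 G N h5 h6
  · obtain ⟨E, _, h1, h3, h2⟩ := exists_group F.specF
    have hE : IsExample E := ⟨h1, h2, conc_iff.1 h3⟩
    refine ⟨fun n => E × FreeGroup (Fin n), fun n => inferInstance, fun n => ?_, ?_⟩
    · refine hprod E _ hE inferInstance ?_
      rw [← conc_iff]
      exact specA.2.2.2.2 (Fin n)
    · intro m n hmn
      refine ⟨fun e => hmn ?_⟩
      have : Group.FG E := C.fg_of_fp E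
      have hfin := finite_hom E
      have e1 : Nat.card (E × FreeGroup (Fin m) →* Multiplicative (ZMod 2)) =
          Nat.card (E × FreeGroup (Fin n) →* Multiplicative (ZMod 2)) :=
        Nat.card_congr
          { toFun := fun f => f.comp e.symm.toMonoidHom
            invFun := fun f => f.comp e.toMonoidHom
            left_inv := fun f => by ext x <;> simp
            right_inv := fun f => by ext x <;> simp }
      rw [card_hom_prod, card_hom_prod, card_hom_free, card_hom_free] at e1
      have hpos : 0 < Nat.card (E →* Multiplicative (ZMod 2)) := Nat.card_pos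
      exact Nat.pow_right_injective (le_refl 2) (Nat.eq_of_mul_eq_mul_left hpos e1)

end Pool.Agent.Results.MP_122f18_al.ClassOfExamples
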